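import Pool.Agent.Helper21.WE.Stmts
import Pool.Agent.Helper3.WD.TRC

/-!
# SSL: ideals of an irreducible Lie algebra of skew matrices have complements
-/

set_option autoImplicit false

namespace MT

attribute [local instance 100] LieRing.ofAssociativeRing

open LieAlgebra RED9 DRV3

namespace SSL3

variable {K : Type} [Field K] {n : ℕ}

/-- the trace of the product with a commutator -/
theorem tr_swap (z x y : Matrix (Fin n) (Fin n) K) :
    ((z * x - x * z) * y).trace = (x * (y * z - z * y)).trace := by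
  rw [mul_sub, Matrix.trace_sub, sub_mul, Matrix.trace_sub, ← mul_assoc, ← mul_assoc,
    mul_assoc z, Matrix.trace_mul_comm z]

/-- the trace of the product with a commutator -/
theorem tr_swap' (Z B B' : Matrix (Fin n) (Fin n) K) :
    ((Z * B - B * Z) * B').trace = (Z * (B * B' - B' * B)).trace := by
  rw [mul_sub, Matrix.trace_sub, sub_mul, Matrix.trace_sub, ← mul_assoc, ← mul_assoc,
    mul_assoc B, Matrix.trace_mul_comm B]

/-- the radical of the trace form on the ideal `C` -/
def kerC (a C : Submodule K (Matrix (Fin n) (Fin n) K)) (ha : Brk a) (hC : Idl a C)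
    (hc : ∀ y : bL a ha, (y : Matrix (Fin n) (Fin n) K) ∈ a) : LieIdeal K (bL a ha) where
  carrier := {x | (x : Matrix (Fin n) (Fin n) K) ∈ C ∧
    ∀ y ∈ C, ((x : Matrix (Fin n) (Fin n) K) * y).trace = 0}
  add_mem' := by
    intro x x' hx hx'
    refine ⟨?_, fun y hy => ?_⟩
    · change x.1 + x'.1 ∈ C
      exact C.add_mem hx.1 hx'.1
    · change ((x.1 + x'.1) * y).trace = 0
      rw [add_mul, Matrix.trace_add, hx.2 y hy, hx'.2 y hy, add_zero]
  zero_mem' := by
    refine ⟨?_, fun y hy => ?_⟩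
    · change (0 : Matrix (Fin n) (Fin n) K) ∈ C
      exact C.zero_mem
    · change ((0 : Matrix (Fin n) (Fin n) K) * y).trace = 0
      rw [zero_mul, Matrix.trace_zero]
  smul_mem' := by
    intro t x hx
    refine ⟨?_, fun y hy => ?_⟩
    · change t • x.1 ∈ C
      exact C.smul_mem t hx.1
    · change ((t • x.1) * y).trace = 0
      rw [Matrix.smul_mul, Matrix.trace_smul, hx.2 y hy, smul_zero]
  lie_mem := by
    intro z x hx
    have h3 : (⁅z, x⁆ : bL a ha).1 = z.1 * x.1 - x.1 * z.1 := by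
      rw [LieSubalgebra.coe_bracket, Ring.lie_def]
    refine ⟨?_, fun y hy => ?_⟩
    · change (⁅z, x⁆ : bL a ha).1 ∈ C
      rw [h3]
      exact hC.2 _ (hc z) _ hx.1
    · change ((⁅z, x⁆ : bL a ha).1 * y).trace = 0
      rw [h3, tr_swap]
      refine hx.2 _ ?_
      have h4 := C.neg_mem (hC.2 _ (hc z) _ hy)
      rwa [neg_sub] at h4

end SSL3

open SSL3

/-- the trace form is nondegenerate on every ideal -/
theorem SSL3.nondeg {K : Type} [Field K] [CharZero K] [IsAlgClosed K] {n : ℕ}
    (ψ : Matrix (Fin n) (Fin n) K) (a C : Submodule K (Matrix (Fin n) (Fin n) K))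
    (hI : Irs ψ a) (hC : Idl a C) (x : Matrix (Fin n) (Fin n) K) (hx : x ∈ C)
    (h0 : ∀ y ∈ C, (x * y).trace = 0) : x = 0 := by
  obtain ⟨hψ, ha, hi, hs⟩ := hI
  rcases Nat.eq_zero_or_pos n with rfl | hn
  · exact Subsingleton.elim _ _
  have : Nonempty (Fin n) := ⟨⟨0, hn⟩⟩
  have : LieModule.IsIrreducible K (bL a ha) (Fin n → K) := irr_bL hn ha hi
  have hE : ∀ x : bL a ha, LieModule.toEnd K (bL a ha) (Fin n → K) x =
      Matrix.toLin' (x : Matrix (Fin n) (Fin n) K) := by
    intro x
    ext v i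
    rfl
  have : LieAlgebra.HasTrivialRadical K (bL a ha) := by
    refine LieAlgebra.hasTrivialRadical_of_isIrreducible_of_isFaithful K (bL a ha) (Fin n → K) ?_
    intro x
    rw [hE x, Matrix.trace_toLin'_eq]
    exact x.2.1
  have hb : ∀ A ∈ a, A ∈ bL a ha := fun A hA => ⟨skew_tr hψ (hs A hA), A, hA, 0, by simp⟩
  have hc : ∀ y : bL a ha, (y : Matrix (Fin n) (Fin n) K) ∈ a := by
    rintro ⟨Y, hY, A, hA, c, rfl⟩
    have h1 := skew_tr hψ (hs A hA)
    rw [Matrix.trace_sub, h1, Matrix.trace_smul, Matrix.trace_one, Fintype.card_fin, zero_sub,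
      smul_eq_mul, neg_eq_zero, mul_eq_zero] at hY
    have h2 : c = 0 := hY.resolve_right (Nat.cast_ne_zero.mpr hn.ne')
    change A - c • (1 : Matrix (Fin n) (Fin n) K) ∈ a
    rw [h2, zero_smul, sub_zero]
    exact hA
  have hk : (⟨x, hb x (hC.1 hx)⟩ : bL a ha) ∈ kerC a C ha hC hc := ⟨hx, fun y hy => h0 y hy⟩
  have htf : LieModule.traceForm K (kerC a C ha hC hc) (Fin n → K) = 0 := by
    ext ⟨y, hy⟩ ⟨z, hz⟩
    change LinearMap.trace K (Fin n → K) ((LieModule.toEnd K (bL a ha) (Fin n → K) y) ∘ₗ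
      (LieModule.toEnd K (bL a ha) (Fin n → K) z)) = 0
    rw [hE y, hE z, ← Matrix.toLin'_mul, Matrix.trace_toLin'_eq]
    exact hy.2 z.1 hz.1
  have hnil : LieModule.IsNilpotent (LieAlgebra.derivedSeries K (kerC a C ha hC hc) 1)
      (Fin n → K) :=
    LieModule.isNilpotent_derivedSeries_of_traceForm_eq_zero htf
  have hD : LieRing.IsNilpotent (LieAlgebra.derivedSeries K (kerC a C ha hC hc) 1) := by
    rw [LieAlgebra.isNilpotent_iff_forall (R := K)]
    intro y
    have h1 := (LieModule.isNilpotent_iff_forall' (R := K)).mp hnil y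
    have h2 : LieModule.toEnd K (LieAlgebra.derivedSeries K (kerC a C ha hC hc) 1) (Fin n → K) y =
        Matrix.toLin' (y.1.1.1 : Matrix (Fin n) (Fin n) K) := by
      ext v i
      rfl
    rw [h2] at h1
    have h3 : IsNilpotent (y.1.1.1 : Matrix (Fin n) (Fin n) K) := by
      have h4 : IsNilpotent ((Matrix.toLinAlgEquiv' : Matrix (Fin n) (Fin n) K ≃ₐ[K] _)
        (y.1.1.1 : Matrix (Fin n) (Fin n) K)) := h1
      exact (IsNilpotent.map_iff (Matrix.toLinAlgEquiv' :
        Matrix (Fin n) (Fin n) K ≃ₐ[K] _).injective).mp h4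
    have h5 : IsNilpotent (LieAlgebra.ad K (bL a ha) y.1.1) :=
      LieAlgebra.isNilpotent_ad_of_isNilpotent h3
    have h6 : IsNilpotent (LieAlgebra.ad K (kerC a C ha hC hc) y.1) :=
      LieSubalgebra.isNilpotent_ad_of_isNilpotent_ad
        (kerC a C ha hC hc : LieSubalgebra K (bL a ha)) h5
    exact LieSubalgebra.isNilpotent_ad_of_isNilpotent_ad
      (LieAlgebra.derivedSeries K (kerC a C ha hC hc) 1 :
        LieSubalgebra K (kerC a C ha hC hc)) h6
  have hsol : LieAlgebra.IsSolvable (kerC a C ha hC hc) := by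
    obtain ⟨k, hk⟩ := LieAlgebra.IsSolvable.solvable K
      (LieAlgebra.derivedSeries K (kerC a C ha hC hc) 1)
    rw [LieIdeal.derivedSeries_eq_bot_iff] at hk
    refine LieAlgebra.IsSolvable.mk (k := k + 1) (R := K) ?_
    rw [LieAlgebra.derivedSeries_def, LieAlgebra.derivedSeriesOfIdeal_add]
    exact hk
  have hbot : kerC a C ha hC hc = ⊥ :=
    LieAlgebra.HasTrivialRadical.eq_bot_of_isSolvable (kerC a C ha hC hc)
  rw [hbot, LieSubmodule.mem_bot] at hk
  exact congrArg Subtype.val hk

theorem st_SSL : ST_SSL := by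
  intro K _ _ _ n ψ a C hI hC X hX
  -- the trace form of the ideal
  let φ : C →ₗ[K] Module.Dual K C := LinearMap.mk₂ K (fun x y : C => (x.1 * y.1).trace)
    (fun x x' y => by
      change ((x.1 + x'.1) * y.1).trace = _
      rw [add_mul, Matrix.trace_add])
    (fun t x y => by
      change ((t • x.1) * y.1).trace = _
      rw [Matrix.smul_mul, Matrix.trace_smul])
    (fun x y y' => by
      change (x.1 * (y.1 + y'.1)).trace = _
      rw [mul_add, Matrix.trace_add])
    (fun t x y => by
      change (x.1 * (t • y.1)).trace = _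
      rw [Matrix.mul_smul, Matrix.trace_smul])
  have hφ : ∀ x y : C, φ x y = (x.1 * y.1).trace := fun x y => rfl
  have hinj : Function.Injective φ := by
    rw [← LinearMap.ker_eq_bot, LinearMap.ker_eq_bot']
    intro x hx
    refine Subtype.ext (SSL3.nondeg ψ a C hI hC x.1 x.2 fun y hy => ?_)
    have h1 := congrArg (fun f : Module.Dual K C => f ⟨y, hy⟩) hx
    exact h1
  have hsur : Function.Surjective φ :=
    (LinearMap.injective_iff_surjective_of_finrank_eq_finrank
      (Subspace.dual_finrank_eq (K := K) (V := C)).symm).mp hinj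
  let f : Module.Dual K C :=
    { toFun := fun B => (X * B.1).trace
      map_add' := fun x y => by
        change (X * (x.1 + y.1)).trace = _
        rw [mul_add, Matrix.trace_add]
      map_smul' := fun t x => by
        change (X * (t • x.1)).trace = _
        rw [Matrix.mul_smul, Matrix.trace_smul]
        rfl }
  obtain ⟨y, hy⟩ := hsur f
  have hy' : ∀ B ∈ C, ((X - y.1) * B).trace = 0 := by
    intro B hB
    have h1 := congrArg (fun f : Module.Dual K C => f ⟨B, hB⟩) hy
    have h2 : (y.1 * B).trace = (X * B).trace := h1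
    rw [sub_mul, Matrix.trace_sub, h2, sub_self]
  refine ⟨X - y.1, a.sub_mem hX (hC.1 y.2), y.1, y.2, (sub_add_cancel _ _).symm, fun B hB => ?_⟩
  have h3 : (X - y.1) * B - B * (X - y.1) = 0 := by
    refine SSL3.nondeg ψ a C hI hC _ (hC.2 _ (a.sub_mem hX (hC.1 y.2)) _ hB) fun B' hB' => ?_
    rw [tr_swap']
    exact hy' _ (hC.2 _ (hC.1 hB) _ hB')
  exact sub_eq_zero.mp h3

end MT
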